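import Pool.Agent.Y755.AX.Stm

/-!
Project AX: continuity, locality and shifts of the distance functions (helper41).
-/

set_option autoImplicit false

open MeasureTheory ProbabilityTheory Filter

open scoped Classical

namespace Pool.Agent.Y41.AX.DMB

open Pool.Agent.Y755.AX

theorem finF (m : ℕ) (x : ℝ) : {n : ℤ | |x - n / 4 ^ m| < 2}.Finite := by
  have h4 : (0 : ℝ) < 4 ^ m := by positivity
  apply (Set.finite_Icc ⌊(x - 2) * 4 ^ m⌋ ⌈(x + 2) * 4 ^ m⌉).subset
  intro n hn
  have hn' : |x - n / 4 ^ m| < 2 := hn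
  rw [abs_lt] at hn'
  have e : (n : ℝ) = n / 4 ^ m * 4 ^ m := by field_simp
  constructor
  · rw [← Int.cast_le (R := ℝ)]
    refine (Int.floor_le _).trans ?_
    rw [e]
    exact mul_le_mul_of_nonneg_right (by linarith) h4.le
  · rw [← Int.cast_le (R := ℝ)]
    refine le_trans ?_ (Int.le_ceil _)
    rw [e]
    exact mul_le_mul_of_nonneg_right (by linarith) h4.le

theorem loc (m : ℕ) (x : ℝ) (A A' : ℤ → Bool) (h : ∀ n : ℤ, |x - n / 4 ^ m| < 2 → A n = A' n) :
    Dm m A x = Dm m A' x := by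
  unfold Dm
  congr 1
  funext n
  by_cases hn : |x - (n : ℝ) / 4 ^ m| < 2
  · rw [h n hn]
  · rw [not_lt] at hn
    rw [min_eq_left hn]
    simp

/-- restriction to the relevant coordinates -/
def res (m : ℕ) (x : ℝ) (A : ℤ → Bool) : {n : ℤ | |x - n / 4 ^ m| < 2} → Bool := fun n => A n.1

/-- extension by `false` -/
noncomputable def ext (m : ℕ) (x : ℝ) (B : {n : ℤ | |x - n / 4 ^ m| < 2} → Bool) : ℤ → Bool :=
  fun n => if h : n ∈ {n : ℤ | |x - n / 4 ^ m| < 2} then B ⟨n, h⟩ else false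

theorem fac (m : ℕ) (x : ℝ) :
    (fun A : ℤ → Bool => Dm m A x) = (fun B => Dm m (ext m x B) x) ∘ res m x := by
  funext A
  apply loc
  intro n hn
  have hn' : n ∈ {n : ℤ | |x - n / 4 ^ m| < 2} := hn
  simp only [ext, res]
  rw [dif_pos hn']

theorem t_DMB : S_DMB := by
  intro m x
  have : Finite {n : ℤ | |x - n / 4 ^ m| < 2} := finF m x
  refine ⟨?_, ?_, ?_⟩
  · rw [fac]
    refine Continuous.comp continuous_of_discreteTopology ?_
    exact continuous_pi fun n => continuous_apply n.1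
  · rw [fac]
    refine Measurable.comp (measurable_of_countable _) ?_
    refine @measurable_pi_lambda (ℤ → Bool) _ _ (Fs {n : ℤ | |x - n / 4 ^ m| < 2}) _ (res m x)
      (fun n => ?_)
    have h1 : MeasurableSpace.comap (fun f : ℤ → Bool => f n.1) inferInstance ≤
        Fs {n : ℤ | |x - n / 4 ^ m| < 2} := le_iSup₂_of_le n.1 n.2 le_rfl
    exact (comap_measurable _).mono h1 le_rfl
  · intro A
    unfold Dm
    symm
    rw [← (Equiv.addRight (1 : ℤ)).iInf_comp]
    congr 1
    funext n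
    have e : x + 1 / 4 ^ m - ((Equiv.addRight (1 : ℤ) n : ℤ) : ℝ) / 4 ^ m =
        x - (n : ℝ) / 4 ^ m := by
      rw [Equiv.coe_addRight]
      push_cast
      ring
    rw [e]
    rfl

end Pool.Agent.Y41.AX.DMB
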