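import Pool.Agent.Y755.AX.Stm

/-!
Project AX: independence of the sigma-algebras of two half-lines (helper41).
-/

set_option autoImplicit false

open MeasureTheory ProbabilityTheory Filter

open scoped Classical

namespace Pool.Agent.Y41.AX.INDG

open Pool.Agent.Y755.AX

/-- the values at finitely many points -/
noncomputable def vec {n : ℕ} (x : Fin n → ℝ) (d : E) : Fin n → ℝ := fun i => ev (x i) d

theorem continuous_vec (hE : S_EVC) {n : ℕ} (x : Fin n → ℝ) : Continuous (vec x) :=
  continuous_pi fun i => hE (x i)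

/-- the sigma-algebra of finitely many evaluations -/
@[instance_reducible] noncomputable def sv {n : ℕ} (x : Fin n → ℝ) : MeasurableSpace E :=
  MeasurableSpace.comap (vec x) MeasurableSpace.pi

theorem sv_le (hE : S_EVC) {n : ℕ} (x : Fin n → ℝ) : sv x ≤ borel E :=
  (continuous_vec hE x).measurable.comap_le

theorem sv_mono {n k : ℕ} (x : Fin n → ℝ) (z : Fin k → ℝ) (f : Fin n → Fin k)
    (h : ∀ i, x i = z (f i)) : sv x ≤ sv z := by
  have e : vec x = (fun (v : Fin k → ℝ) (i : Fin n) => v (f i)) ∘ vec z := by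
    funext d i
    simp only [vec, Function.comp, h]
  have hm : Measurable (fun (v : Fin k → ℝ) (i : Fin n) => v (f i)) :=
    measurable_pi_lambda _ fun i => measurable_pi_apply _
  unfold sv
  rw [e, ← MeasurableSpace.comap_comp]
  exact MeasurableSpace.comap_mono hm.comap_le

theorem le_sv {n : ℕ} (x : Fin n → ℝ) (i : Fin n) :
    MeasurableSpace.comap (ev (x i)) inferInstance ≤ sv x := by
  have e : ev (x i) = (fun v : Fin n → ℝ => v i) ∘ vec x := rfl
  unfold sv
  rw [e, ← MeasurableSpace.comap_comp]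
  exact MeasurableSpace.comap_mono (measurable_pi_apply i).comap_le

/-- finite vectors of points of `S` -/
def Ix (S : Set ℝ) : Type := Σ n : ℕ, {x : Fin n → ℝ // ∀ i, x i ∈ S}

theorem Gs_le (S : Set ℝ) : Gs S ≤ ⨆ p : Ix S, sv p.2.1 := by
  refine iSup₂_le fun x hx => ?_
  refine le_trans (le_sv (fun _ : Fin 1 => x) 0) ?_
  exact le_iSup (fun p : Ix S => sv p.2.1) ⟨1, ⟨fun _ => x, fun _ => hx⟩⟩

theorem directed_sv (S : Set ℝ) : Directed (· ≤ ·) (fun p : Ix S => sv p.2.1) := by
  rintro ⟨n, x, hx⟩ ⟨k, y, hy⟩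
  refine ⟨⟨n + k, Fin.append x y, ?_⟩, ?_, ?_⟩
  · intro i
    refine Fin.addCases (fun i => ?_) (fun i => ?_) i
    · rw [Fin.append_left]
      exact hx i
    · rw [Fin.append_right]
      exact hy i
  · exact sv_mono x (Fin.append x y) (Fin.castAdd k) fun i => (Fin.append_left x y i).symm
  · exact sv_mono y (Fin.append x y) (Fin.natAdd n) fun i => (Fin.append_right x y i).symm

theorem indep_vec (hE : S_EVC) (C : ℝ) (P : ProbabilityMeasure E)
    (hI : Ind (P : Measure E) C) {n k : ℕ} (x : Fin n → ℝ) (y : Fin k → ℝ)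
    (hx : ∀ i, x i ∈ Set.Iic (0 : ℝ)) (hy : ∀ i, y i ∈ Set.Ici C) :
    Indep (sv x) (sv y) (P : Measure E) := by
  have hmx : Measurable (vec x) := (continuous_vec hE x).measurable
  have hmy : Measurable (vec y) := (continuous_vec hE y).measurable
  have h1 : IndepFun (vec x) (vec y) (P : Measure E) := by
    rw [indepFun_iff_map_prod_eq_prod_map_map hmx.aemeasurable hmy.aemeasurable]
    have : IsFiniteMeasure ((P : Measure E).map (vec x)) :=
      Measure.isFiniteMeasure_map _ _
    have : IsFiniteMeasure ((P : Measure E).map (vec y)) :=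
      Measure.isFiniteMeasure_map _ _
    have : IsFiniteMeasure ((P : Measure E).map (fun ω => (vec x ω, vec y ω))) :=
      Measure.isFiniteMeasure_map _ _
    refine Measure.eq_prod_of_integral_mul_boundedContinuousFunction fun f g => ?_
    rw [integral_map (hmx.prodMk hmy).aemeasurable, integral_map hmx.aemeasurable,
      integral_map hmy.aemeasurable]
    · exact hI n k x y f g f.continuous g.continuous hx hy
    · exact g.continuous.aestronglyMeasurable
    · exact f.continuous.aestronglyMeasurable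
    · exact ((f.continuous.comp continuous_fst).mul
        (g.continuous.comp continuous_snd)).aestronglyMeasurable
  exact (IndepFun_iff_Indep _ _ _).mp h1

theorem t_INDG : S_EVC → S_INDG := by
  intro hE C P _ hI
  have h1 : ∀ q : Ix (Set.Ici C), Indep (⨆ p : Ix (Set.Iic (0 : ℝ)), sv p.2.1) (sv q.2.1)
      (P : Measure E) := fun q =>
    indep_iSup_of_directed_le (fun p => indep_vec hE C P hI p.2.1 q.2.1 p.2.2 q.2.2)
      (fun p => sv_le hE p.2.1) (sv_le hE q.2.1) (directed_sv _)
  have hle : (⨆ p : Ix (Set.Iic (0 : ℝ)), sv p.2.1) ≤ borel E :=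
    iSup_le fun p => sv_le hE p.2.1
  have h2 : Indep (⨆ q : Ix (Set.Ici C), sv q.2.1) (⨆ p : Ix (Set.Iic (0 : ℝ)), sv p.2.1)
      (P : Measure E) :=
    indep_iSup_of_directed_le (fun q => (h1 q).symm) (fun q => sv_le hE q.2.1) hle
      (directed_sv _)
  exact indep_of_indep_of_le_left (indep_of_indep_of_le_right h2.symm (Gs_le _)) (Gs_le _)

end Pool.Agent.Y41.AX.INDG
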